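import Pool.Agent.Lib.MP_fa022d_an.Main

open StekIso

/-- A continuous family of Steklov isospectral doubly connected planar domains that meets
uncountably many congruence classes. -/
theorem Pool.Agent.Results.MP_fa022d_an.IsoFamily.result :
    ∃ (Ω : ℝ → Set ℂ) (P : ∀ τ, BdryParam (Ω τ) 2),
      (∀ τ, IsPlanarDomain (Ω τ)) ∧
      (∀ i, Continuous fun z : ℝ × ℝ => (P z.1).γ i z.2) ∧
      (∀ τ τ', SteklovIsospectral (Ω τ) (Ω τ')) ∧
      ¬∃ T : Set ℝ, T.Countable ∧ ∀ τ, ∃ t ∈ T, Congruent (Ω τ) (Ω t) := by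
  obtain ⟨Ω, P, h1, h2, h3, h4, -⟩ := main
  exact ⟨Ω, P, h1, h2, h3, h4⟩
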