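import Pool.Agent.Lib.MP_fa022d_an.Main
import Pool.Agent.Lib.MP_fa022d_an.Len

open StekIso

/-- A doubly connected planar domain whose Steklov isospectral set is not compact. -/
theorem Pool.Agent.Results.MP_fa022d_an.NonCompact.result :
    ∃ Ω : Set ℂ, IsPlanarDomain Ω ∧ Nonempty (BdryParam Ω 2) ∧
      ¬CinfCompact {Ω' | IsPlanarDomain Ω' ∧ SteklovIsospectral Ω' Ω} := by
  obtain ⟨Φ, h1, h2⟩ := exists_family
  exact ⟨Φ.Ω 0, h1 0, ⟨Φ.P 0⟩, Φ.not_cinf fun τ => ⟨h1 τ, h2 τ 0⟩⟩
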